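import Mathlib
import Pool.Agent.Q286.BD.Spec2
import Pool.Agent.Q202.BD.Low

set_option autoImplicit false

/-!
# Project BD, job 1842 (helper280): Burnol's lower bound for finitely many zeros on the line, real dilations
-/

namespace Pool.Agent.Q280.BD

open MeasureTheory Set Filter
open Pool.Agent.Q286.BD
open Pool.Agent.Q202.BD (prodInt cauchy sq_inv_int int1 final_calc)

theorem JR_nonneg (a : ℝ →₀ ℝ) : 0 ≤ JR a :=
  setIntegral_nonneg measurableSet_Ioi fun _ _ => sq_nonneg _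

theorem fr_int (θ : ℝ) (h0 : 0 < θ) (h1 : θ ≤ 1) :
    IntegrableOn (fun y : ℝ => (Int.fract (θ * y) / y) ^ 2) (Ioi 0) := by
  have hm : Measurable fun y : ℝ => (Int.fract (θ * y) / y) ^ 2 :=
    (((measurable_id.const_mul _).fract).div measurable_id).pow_const 2
  rw [← Ioc_union_Ioi_eq_Ioi (zero_le_one' ℝ)]
  refine IntegrableOn.union ?_ ?_
  · refine Measure.integrableOn_of_bounded (M := 1) (by simp) hm.aestronglyMeasurable ?_
    refine (ae_restrict_iff' measurableSet_Ioc).2 (Eventually.of_forall fun y hy => ?_)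
    have h3 : 0 < y := hy.1
    have h4 : Int.fract (θ * y) ≤ y := by
      have h2 : Int.fract (θ * y) ≤ θ * y := by
        have h3 : (0 : ℤ) ≤ ⌊θ * y⌋ := Int.floor_nonneg.2 (by positivity)
        have h4 : (0 : ℝ) ≤ (⌊θ * y⌋ : ℝ) := by exact_mod_cast h3
        have := Int.self_sub_floor (θ * y)
        linarith
      nlinarith
    have h5 : 0 ≤ Int.fract (θ * y) := Int.fract_nonneg _
    rw [Real.norm_eq_abs, abs_of_nonneg (sq_nonneg _)]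
    have h6 : Int.fract (θ * y) / y ≤ 1 := by
      rw [div_le_one h3]
      exact h4
    exact pow_le_one₀ (by positivity) h6
  · refine sq_inv_int.mono' hm.aestronglyMeasurable ?_
    refine (ae_restrict_iff' measurableSet_Ioi).2 (Eventually.of_forall fun y hy => ?_)
    have hy' : (1 : ℝ) < y := hy
    have h5 : 0 ≤ Int.fract (θ * y) := Int.fract_nonneg _
    rw [Real.norm_eq_abs, abs_of_nonneg (sq_nonneg _)]
    refine pow_le_pow_left₀ (by positivity) ?_ 2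
    exact div_le_div_of_nonneg_right (Int.fract_lt_one _).le (by linarith)

/-- the distance in the variable `y = 1 / x` -/
theorem JR_inv (h3 : S_intR) (a : ℝ →₀ ℝ) (ha : ∀ θ ∈ a.support, 0 < θ ∧ θ ≤ 1) :
    IntegrableOn (fun y : ℝ => (difR a (1 / y) / y) ^ 2) (Ioi 0) ∧
      ∫ y in Ioi (0 : ℝ), (difR a (1 / y) / y) ^ 2 = JR a := by
  have e : ∀ y ∈ Ioi (0 : ℝ), (|(-1 : ℝ)| * y ^ ((-1 : ℝ) - 1)) • difR a (y ^ (-1 : ℝ)) ^ 2 =
      (difR a (1 / y) / y) ^ 2 := by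
    intro y hy
    have hy0 : (0 : ℝ) < y := hy
    rw [Real.rpow_neg_one, show ((-1 : ℝ) - 1) = -(2 : ℕ) by norm_num, Real.rpow_neg hy0.le,
      Real.rpow_natCast, smul_eq_mul, abs_neg, abs_one, one_mul, div_pow, one_div]
    rw [mul_comm, div_eq_mul_inv]
  constructor
  · have h1 := (integrableOn_Ioi_comp_rpow_iff (fun x : ℝ => difR a x ^ 2)
      (show (-1 : ℝ) ≠ 0 by norm_num)).2 (h3 a ha)
    exact h1.congr_fun e measurableSet_Ioi
  · have h1 := integral_comp_rpow_Ioi (fun x : ℝ => difR a x ^ 2)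
      (show (-1 : ℝ) ≠ 0 by norm_num)
    rw [setIntegral_congr_fun measurableSet_Ioi e] at h1
    exact h1

theorem difR_inv (a : ℝ →₀ ℝ) {y : ℝ} (hy : 0 < y) :
    difR a (1 / y) = (if 1 ≤ y then 1 else 0) -
      ∑ θ ∈ a.support, a θ * Int.fract (θ * y) := by
  unfold difR
  rw [Finsupp.sum]
  congr 1
  · by_cases h : 1 ≤ y
    · rw [if_pos h, if_pos (by rw [div_le_one hy]; exact h)]
    · rw [if_neg h, if_neg (by rw [div_le_one hy]; exact h)]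
  · refine Finset.sum_congr rfl fun n _ => ?_
    congr 2
    field_simp

theorem intfr {K : ℝ → ℂ} (hK : Measurable K)
    (hK2 : IntegrableOn (fun y : ℝ => ‖K y‖ ^ 2 * y ^ 2) (Ioi 0)) (θ : ℝ) (h0 : 0 < θ)
    (h1 : θ ≤ 1) :
    IntegrableOn (fun y : ℝ => ((Int.fract (θ * y) : ℝ) : ℂ) * K y) (Ioi 0) := by
  have h2 := prodInt measurableSet_Ioi (subset_refl _) (A := fun y => Int.fract (θ * y) / y)
    ((measurable_id.const_mul _).fract.div measurable_id) (fr_int θ h0 h1) hK hK2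
  refine h2.congr_fun ?_ measurableSet_Ioi
  intro y hy
  have hy0 : (0 : ℝ) < y := hy
  change ((Int.fract (θ * y) / y * y : ℝ) : ℂ) * K y = _
  rw [div_mul_cancel₀ _ hy0.ne']

/-- the pairing of the distance function with a test function -/
theorem pair (a : ℝ →₀ ℝ) (ha : ∀ θ ∈ a.support, 0 < θ ∧ θ ≤ 1) {K : ℝ → ℂ} (hK : Measurable K)
    (hK2 : IntegrableOn (fun y : ℝ => ‖K y‖ ^ 2 * y ^ 2) (Ioi 0)) :
    IntegrableOn (fun y : ℝ => ((difR a (1 / y) : ℝ) : ℂ) * K y) (Ioi 0) ∧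
    ∫ y in Ioi (0 : ℝ), ((difR a (1 / y) : ℝ) : ℂ) * K y = (∫ y in Ioi (1 : ℝ), K y) -
      ∑ θ ∈ a.support, (a θ : ℂ) *
        ∫ y in Ioi (0 : ℝ), ((Int.fract (θ * y) : ℝ) : ℂ) * K y := by
  have h1 : IntegrableOn K (Ioi 1) := int1 hK hK2
  have h3 : ∀ θ ∈ a.support,
      IntegrableOn (fun y : ℝ => ((Int.fract (θ * y) : ℝ) : ℂ) * K y) (Ioi 0) :=
    fun n hn => intfr hK hK2 n (ha n hn).1 (ha n hn).2
  have h4 : IntegrableOn (fun y : ℝ => (Ici (1 : ℝ)).indicator K y) (Ioi 0) := by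
    have h5 : IntegrableOn K (Ici 1) := integrableOn_Ici_iff_integrableOn_Ioi (by simp) |>.2 h1
    exact ((integrable_indicator_iff measurableSet_Ici).2 h5).integrableOn
  have h6 : IntegrableOn (fun y : ℝ => ∑ θ ∈ a.support, (a θ : ℂ) *
      (((Int.fract (θ * y) : ℝ) : ℂ) * K y)) (Ioi 0) :=
    integrable_finsetSum _ fun n hn => (h3 n hn).const_mul _
  have e : ∀ y ∈ Ioi (0 : ℝ), ((difR a (1 / y) : ℝ) : ℂ) * K y =
      (Ici (1 : ℝ)).indicator K y - ∑ θ ∈ a.support, (a θ : ℂ) *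
      (((Int.fract (θ * y) : ℝ) : ℂ) * K y) := by
    intro y hy
    rw [difR_inv a hy]
    push_cast
    rw [sub_mul, Finset.sum_mul]
    congr 1
    · by_cases h : 1 ≤ y
      · rw [if_pos h, indicator_of_mem (show y ∈ Ici 1 from h)]
        simp
      · rw [if_neg h, indicator_of_notMem (show y ∉ Ici 1 from h)]
        simp
    · exact Finset.sum_congr rfl fun n _ => mul_assoc _ _ _
  constructor
  · exact (h4.sub h6).congr_fun (fun y hy => (e y hy).symm) measurableSet_Ioi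
  · rw [setIntegral_congr_fun measurableSet_Ioi e, integral_sub h4 h6,
      integral_finsetSum _ fun n hn => (h3 n hn).const_mul _]
    congr 1
    · rw [setIntegral_indicator measurableSet_Ici]
      have h7 : Ioi (0 : ℝ) ∩ Ici 1 = Ici 1 :=
        inter_eq_right.2 fun y (hy : 1 ≤ y) => show 0 < y from lt_of_lt_of_le one_pos hy
      rw [h7, integral_Ici_eq_integral_Ioi]
    · exact Finset.sum_congr rfl fun n _ => integral_const_mul _ _

/-- Cauchy-Schwarz for the pairing -/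
theorem pair_le (h3 : S_intR) (a : ℝ →₀ ℝ) (ha : ∀ θ ∈ a.support, 0 < θ ∧ θ ≤ 1) {K : ℝ → ℂ}
    (hK : Measurable K) (hK2 : IntegrableOn (fun y : ℝ => ‖K y‖ ^ 2 * y ^ 2) (Ioi 0)) :
    ‖∫ y in Ioi (0 : ℝ), ((difR a (1 / y) : ℝ) : ℂ) * K y‖ ^ 2 ≤
      JR a * ∫ y in Ioi (0 : ℝ), ‖K y‖ ^ 2 * y ^ 2 := by
  have h1 := (pair a ha hK hK2).1
  have e : ∀ y ∈ Ioi (0 : ℝ), ‖((difR a (1 / y) : ℝ) : ℂ) * K y‖ =
      |difR a (1 / y) / y| * (‖K y‖ * y) := by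
    intro y hy
    have hy0 : (0 : ℝ) < y := hy
    rw [norm_mul, Complex.norm_real, Real.norm_eq_abs, abs_div, abs_of_pos hy0]
    field_simp
  have h2 : ‖∫ y in Ioi (0 : ℝ), ((difR a (1 / y) : ℝ) : ℂ) * K y‖ ≤
      ∫ y in Ioi (0 : ℝ), |difR a (1 / y) / y| * (‖K y‖ * y) := by
    refine (norm_integral_le_integral_norm _).trans (le_of_eq ?_)
    exact setIntegral_congr_fun measurableSet_Ioi e
  have h4 := cauchy (s := Ioi 0) (fun y => |difR a (1 / y) / y|) (fun y => ‖K y‖ * y)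
    (by simpa only [sq_abs] using (JR_inv h3 a ha).1) (by simpa only [mul_pow] using hK2)
    (IntegrableOn.congr_fun h1.norm e measurableSet_Ioi)
  simp only [sq_abs, mul_pow] at h4
  rw [(JR_inv h3 a ha).2] at h4
  exact (pow_le_pow_left₀ (norm_nonneg _) h2 2).trans h4

theorem measurable_Km (g : ℝ) (p : Polynomial ℝ) (L : ℝ) : Measurable (Km g p L) := by
  unfold Km
  refine Measurable.ite ?_ ?_ measurable_const
  · exact measurableSet_Icc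
  · refine Measurable.mul ?_ ?_
    · exact Complex.measurable_ofReal.pow_const _
    · exact Complex.measurable_ofReal.comp
        (p.continuous.measurable.comp (Real.measurable_log.div_const _))

/-- the elementary inequality behind the norm bound -/
theorem elem {ε x y z : ℝ} (hε : 0 < ε) (hz : 0 ≤ z) (h : z ≤ x + y) :
    z ^ 2 ≤ (1 + ε) * x ^ 2 + (1 + 1 / ε) * y ^ 2 := by
  have h1 : z ^ 2 ≤ (x + y) ^ 2 := pow_le_pow_left₀ hz h 2
  have h2 : 0 ≤ ε * (x - y / ε) ^ 2 := by positivity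
  have h3 : ε * (x - y / ε) ^ 2 = ε * x ^ 2 - 2 * x * y + 1 / ε * y ^ 2 := by
    field_simp
    ring
  nlinarith

/-- JOB 1842. -/
theorem lowR (h0 : S_leg) (h1 : S_TR) (h2 : S_TN) (h3 : S_intR) : S_lowR := by
  intro S hS η hη
  obtain ⟨M, hMd⟩ : ∃ M : ℝ, M = ∑ g ∈ S, (mz (cl g) : ℝ) ^ 2 / (1 / 4 + g ^ 2) := ⟨_, rfl⟩
  rw [← hMd]
  have hM0 : 0 ≤ M := by
    rw [hMd]
    exact Finset.sum_nonneg fun g _ => by positivity
  rcases le_or_gt M η with hM | hM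
  · refine ⟨1 / 2, by norm_num, by norm_num, fun lam hl1 hl2 a _ => ?_⟩
    have h4 : (1 : ℝ) ≤ 1 / lam := by
      rw [le_div_iff₀ hl1]
      linarith
    have h5 : 0 ≤ JR a * Real.log (1 / lam) := mul_nonneg (JR_nonneg a) (Real.log_nonneg h4)
    linarith
  have hp : ∀ g : ℝ, ∃ p : Polynomial ℝ, p.degree < mz (cl g) ∧
      p.eval 0 = (mz (cl g) : ℝ) ^ 2 ∧ ∫ u in (0 : ℝ)..1, p.eval u ^ 2 = (mz (cl g) : ℝ) ^ 2 := by
    intro g
    rcases Nat.eq_zero_or_pos (mz (cl g)) with h | h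
    · refine ⟨0, ?_, by simp [h], by simp [h]⟩
      rw [h, Polynomial.degree_zero]
      exact WithBot.bot_lt_coe _
    · obtain ⟨p, hp1, hp2, hp3⟩ := h0 _ h
      refine ⟨p, hp1, hp2, ?_⟩
      have h4 := hp3 p hp1
      rw [hp2] at h4
      rw [← h4]
      simp only [sq]
  choose p hpd hp0 hpi using hp
  obtain ⟨δ, hδd⟩ : ∃ δ : ℝ, δ = min (1 / 4) (η / (16 * (M + 1))) := ⟨_, rfl⟩
  have hδ0 : 0 < δ := by
    rw [hδd]
    exact lt_min (by norm_num) (by positivity)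
  have hδ2 : 2 * δ * M ≤ η / 8 := by
    have h4 : δ ≤ η / (16 * (M + 1)) := by
      rw [hδd]
      exact min_le_right _ _
    rw [le_div_iff₀ (by positivity)] at h4
    nlinarith
  have hT1 : ∀ g : ℝ, ∃ C : ℝ, 0 < C ∧ (g ∈ S → ∀ L : ℝ, 1 ≤ L → ∃ K : ℝ → ℂ,
      Measurable K ∧ IntegrableOn K (Ioi 0) ∧
      (∀ θ : ℝ, Real.exp (-L) ≤ θ → θ ≤ 1 →
        ∫ y in Ioi (0 : ℝ), ((Int.fract (θ * y) : ℝ) : ℂ) * K y = 0) ∧
      ‖(∫ y in Ioi (1 : ℝ), K y) - (((p g).eval 0 : ℝ) : ℂ) / cl g‖ ≤ C / L ∧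
      IntegrableOn (fun y : ℝ => ‖K y - Km g (p g) L y‖ ^ 2 * y ^ 2) (Ioi 0) ∧
      ∫ y in Ioi (0 : ℝ), ‖K y - Km g (p g) L y‖ ^ 2 * y ^ 2 ≤ C) := by
    intro g
    by_cases hg : g ∈ S
    · obtain ⟨C, hC, hC'⟩ := h1 g (p g) (hS g hg) (hpd g)
      exact ⟨C, hC, fun _ => hC'⟩
    · exact ⟨1, one_pos, fun h => absurd h hg⟩
  choose C hC0 hC using hT1
  obtain ⟨w, hwd⟩ : ∃ w : ℝ → ℂ, w = fun g => 1 / (starRingEnd ℂ) (cl g) := ⟨_, rfl⟩
  have hcl : ∀ g : ℝ, Complex.normSq (cl g) = 1 / 4 + g ^ 2 := by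
    intro g
    unfold cl
    rw [Complex.normSq_apply]
    simp
    ring
  have hw1 : ∀ g : ℝ, w g * (((p g).eval 0 : ℝ) : ℂ) / cl g =
      (((mz (cl g) : ℝ) ^ 2 / (1 / 4 + g ^ 2) : ℝ) : ℂ) := by
    intro g
    have e1 : (starRingEnd ℂ) (cl g) * cl g = ((1 / 4 + g ^ 2 : ℝ) : ℂ) := by
      rw [mul_comm, Complex.mul_conj, hcl]
    rw [hwd, hp0, Complex.ofReal_div, ← e1]
    change 1 / (starRingEnd ℂ) (cl g) * _ / cl g = _
    rw [one_div_mul_eq_div, div_div]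
  have hw2 : ∀ g : ℝ, ‖w g‖ ^ 2 = 1 / (1 / 4 + g ^ 2) := by
    intro g
    rw [hwd]
    change ‖1 / (starRingEnd ℂ) (cl g)‖ ^ 2 = _
    rw [norm_div, norm_one, RCLike.norm_conj, div_pow, one_pow, Complex.sq_norm, hcl]
  obtain ⟨W, hWd⟩ : ∃ W : ℝ, W = ∑ g ∈ S, ‖w g‖ * C g := ⟨_, rfl⟩
  have hW0 : 0 ≤ W := by
    rw [hWd]
    exact Finset.sum_nonneg fun g _ => mul_nonneg (norm_nonneg _) (hC0 g).le
  obtain ⟨CN, hCN0, hCN⟩ := h2 S p w
  obtain ⟨D, hDd⟩ : ∃ D : ℝ, D = (∑ g ∈ S, ‖w g‖ ^ 2) * ∑ g ∈ S, C g := ⟨_, rfl⟩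
  have hD0 : 0 ≤ D := by
    rw [hDd]
    exact mul_nonneg (Finset.sum_nonneg fun g _ => sq_nonneg _)
      (Finset.sum_nonneg fun g _ => (hC0 g).le)
  obtain ⟨E, hEd⟩ : ∃ E : ℝ, E = (1 + 2 * δ) * CN + (1 + 1 / (2 * δ)) * D := ⟨_, rfl⟩
  have hE0 : 0 ≤ E := by
    rw [hEd]
    positivity
  have hsum : ∑ g ∈ S, ‖w g‖ ^ 2 * (∫ u in (0 : ℝ)..1, (p g).eval u ^ 2) = M := by
    rw [hMd]
    refine Finset.sum_congr rfl fun g _ => ?_
    rw [hw2, hpi]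
    ring
  rw [hsum] at hCN
  obtain ⟨L0, hL0⟩ : ∃ L0 : ℝ, L0 = 1 + M + 4 * W / η + 8 * E / η := ⟨_, rfl⟩
  have hL0' : 1 ≤ L0 := by
    rw [hL0]
    have : 0 ≤ 4 * W / η := by positivity
    have : 0 ≤ 8 * E / η := by positivity
    linarith
  refine ⟨Real.exp (-L0), Real.exp_pos _, by
    rw [Real.exp_lt_one_iff]
    linarith, fun lam hl1 hl2 a ha => ?_⟩
  obtain ⟨L, hL⟩ : ∃ L : ℝ, L = Real.log (1 / lam) := ⟨_, rfl⟩
  rw [← hL]
  have hexp : Real.exp (-L) = lam := by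
    rw [hL, one_div, Real.log_inv, neg_neg, Real.exp_log hl1]
  have hLL : L0 ≤ L := by
    have : Real.exp (-L) < Real.exp (-L0) := by rw [hexp]; exact hl2
    have := Real.exp_lt_exp.1 this
    linarith
  have hL1 : 1 ≤ L := hL0'.trans hLL
  have hLpos : 0 < L := by linarith
  have q1 : 0 ≤ 4 * W / η := by positivity
  have q2 : 0 ≤ 8 * E / η := by positivity
  have hLM : M ≤ L := by rw [hL0] at hLL; linarith
  have hWL : W / L ≤ η / 4 := by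
    rw [div_le_iff₀ hLpos]
    have : 4 * W / η ≤ L := by rw [hL0] at hLL; linarith
    rw [div_le_iff₀ hη] at this
    linarith
  have hEL : E ≤ L * (η / 8) := by
    have : 8 * E / η ≤ L := by rw [hL0] at hLL; linarith
    rw [div_le_iff₀ hη] at this
    linarith
  have ha' : ∀ θ ∈ a.support, 0 < θ ∧ θ ≤ 1 :=
    fun θ hθ => ⟨lt_of_lt_of_le hl1 (ha θ hθ).1, (ha θ hθ).2⟩
  have hK : ∀ g : ℝ, ∃ K : ℝ → ℂ, g ∈ S → (
      Measurable K ∧ IntegrableOn K (Ioi 0) ∧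
      (∀ θ : ℝ, Real.exp (-L) ≤ θ → θ ≤ 1 →
        ∫ y in Ioi (0 : ℝ), ((Int.fract (θ * y) : ℝ) : ℂ) * K y = 0) ∧
      ‖(∫ y in Ioi (1 : ℝ), K y) - (((p g).eval 0 : ℝ) : ℂ) / cl g‖ ≤ C g / L ∧
      IntegrableOn (fun y : ℝ => ‖K y - Km g (p g) L y‖ ^ 2 * y ^ 2) (Ioi 0) ∧
      ∫ y in Ioi (0 : ℝ), ‖K y - Km g (p g) L y‖ ^ 2 * y ^ 2 ≤ C g) := by
    intro g
    by_cases hg : g ∈ S
    · obtain ⟨K, h⟩ := hC g hg L hL1
      exact ⟨K, fun _ => h⟩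
    · exact ⟨0, fun h => absurd h hg⟩
  choose K hK using hK
  obtain ⟨r1, r2⟩ := hCN L hL1
  obtain ⟨k, hk⟩ : ∃ k : ℝ → ℂ, k = fun y => ∑ g ∈ S, w g * K g y := ⟨_, rfl⟩
  have hKm : ∀ g ∈ S, Measurable (K g) := fun g hg => (hK g hg).1
  have hkm : Measurable k := by
    rw [hk]
    exact Finset.measurable_sum _ fun g hg => (hKm g hg).const_mul _
  -- each `K g` is square integrable
  have hMm : ∀ g : ℝ, IntegrableOn (fun y : ℝ => ‖Km g (p g) L y‖ ^ 2 * y ^ 2) (Ioi 0) := by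
    intro g
    obtain ⟨C', _, hC'⟩ := h2 {g} p (fun _ => 1)
    have h4 := (hC' L hL1).1
    simpa only [Finset.sum_singleton, one_mul] using h4
  have hyy : Measurable fun y : ℝ => y ^ 2 := measurable_id.pow_const 2
  have hK2 : ∀ g ∈ S,
      IntegrableOn (fun y : ℝ => ‖K g y‖ ^ 2 * y ^ 2) (Ioi 0) := by
    intro g hg
    refine Integrable.mono' (((hMm g).const_mul 2).add ((hK g hg).2.2.2.2.1.const_mul 2)) ?_ ?_
    · exact (((hKm g hg).norm.pow_const 2).mul hyy).aestronglyMeasurable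
    · refine Eventually.of_forall fun y => ?_
      rw [Real.norm_eq_abs, abs_of_nonneg (by positivity), Pi.add_apply]
      have h4 : ‖K g y‖ ≤ ‖Km g (p g) L y‖ + ‖K g y - Km g (p g) L y‖ := by
        have h5 := norm_add_le (Km g (p g) L y) (K g y - Km g (p g) L y)
        rwa [add_sub_cancel] at h5
      have h5 := elem one_pos (norm_nonneg _) h4
      have h6 : 0 ≤ y ^ 2 := sq_nonneg y
      nlinarith
  have hpt : ∀ y : ℝ, ‖k y‖ ^ 2 * y ^ 2 ≤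
      (1 + 2 * δ) * (‖∑ g ∈ S, w g * Km g (p g) L y‖ ^ 2 * y ^ 2) +
      (1 + 1 / (2 * δ)) * ((∑ g ∈ S, ‖w g‖ ^ 2) *
        ∑ g ∈ S, ‖K g y - Km g (p g) L y‖ ^ 2 * y ^ 2) := by
    intro y
    have h4 : k y = ∑ g ∈ S, w g * Km g (p g) L y +
        ∑ g ∈ S, w g * (K g y - Km g (p g) L y) := by
      rw [hk, ← Finset.sum_add_distrib]
      refine Finset.sum_congr rfl fun g _ => ?_
      ring
    have h5 : ‖∑ g ∈ S, w g * (K g y - Km g (p g) L y)‖ ≤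
        ∑ g ∈ S, ‖w g‖ * ‖K g y - Km g (p g) L y‖ := by
      refine (norm_sum_le _ _).trans (le_of_eq ?_)
      exact Finset.sum_congr rfl fun g _ => norm_mul _ _
    have h6 : (∑ g ∈ S, ‖w g‖ * ‖K g y - Km g (p g) L y‖) ^ 2 ≤
        (∑ g ∈ S, ‖w g‖ ^ 2) * ∑ g ∈ S, ‖K g y - Km g (p g) L y‖ ^ 2 :=
      Finset.sum_mul_sq_le_sq_mul_sq _ _ _
    have h7 : ‖k y‖ ≤ ‖∑ g ∈ S, w g * Km g (p g) L y‖ +
        ∑ g ∈ S, ‖w g‖ * ‖K g y - Km g (p g) L y‖ := by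
      rw [h4]
      exact (norm_add_le _ _).trans (add_le_add le_rfl h5)
    have h8 := elem (show 0 < 2 * δ by positivity) (norm_nonneg _) h7
    rw [← Finset.sum_mul]
    have h9 : 0 ≤ y ^ 2 := sq_nonneg y
    calc ‖k y‖ ^ 2 * y ^ 2 ≤ ((1 + 2 * δ) * ‖∑ g ∈ S, w g * Km g (p g) L y‖ ^ 2 +
          (1 + 1 / (2 * δ)) * (∑ g ∈ S, ‖w g‖ * ‖K g y - Km g (p g) L y‖) ^ 2) * y ^ 2 :=
          mul_le_mul_of_nonneg_right h8 h9
      _ ≤ ((1 + 2 * δ) * ‖∑ g ∈ S, w g * Km g (p g) L y‖ ^ 2 +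
          (1 + 1 / (2 * δ)) * ((∑ g ∈ S, ‖w g‖ ^ 2) *
            ∑ g ∈ S, ‖K g y - Km g (p g) L y‖ ^ 2)) * y ^ 2 := by
          refine mul_le_mul_of_nonneg_right (add_le_add le_rfl ?_) h9
          exact mul_le_mul_of_nonneg_left h6 (by positivity)
      _ = _ := by ring
  have hI1 : IntegrableOn (fun y : ℝ => ∑ g ∈ S, ‖K g y - Km g (p g) L y‖ ^ 2 * y ^ 2) (Ioi 0) :=
    integrable_finsetSum _ fun g hg => (hK g hg).2.2.2.2.1
  have hI2 : IntegrableOn (fun y : ℝ =>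
      (1 + 2 * δ) * (‖∑ g ∈ S, w g * Km g (p g) L y‖ ^ 2 * y ^ 2)) (Ioi 0) := r1.const_mul _
  have hI3 : IntegrableOn (fun y : ℝ => (1 + 1 / (2 * δ)) * ((∑ g ∈ S, ‖w g‖ ^ 2) *
        ∑ g ∈ S, ‖K g y - Km g (p g) L y‖ ^ 2 * y ^ 2)) (Ioi 0) :=
    (hI1.const_mul _).const_mul _
  have hk2 : IntegrableOn (fun y : ℝ => ‖k y‖ ^ 2 * y ^ 2) (Ioi 0) := by
    refine Integrable.mono' (hI2.add hI3) ?_ ?_
    · exact ((hkm.norm.pow_const 2).mul hyy).aestronglyMeasurable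
    · refine Eventually.of_forall fun y => ?_
      rw [Real.norm_eq_abs, abs_of_nonneg (by positivity)]
      exact hpt y
  have hkN : ∫ y in Ioi (0 : ℝ), ‖k y‖ ^ 2 * y ^ 2 ≤ L * ((1 + 2 * δ) * M + η / 8) := by
    have h4 : ∫ y in Ioi (0 : ℝ), ‖k y‖ ^ 2 * y ^ 2 ≤
        ∫ y in Ioi (0 : ℝ), ((1 + 2 * δ) * (‖∑ g ∈ S, w g * Km g (p g) L y‖ ^ 2 * y ^ 2) +
        (1 + 1 / (2 * δ)) * ((∑ g ∈ S, ‖w g‖ ^ 2) *
        ∑ g ∈ S, ‖K g y - Km g (p g) L y‖ ^ 2 * y ^ 2)) :=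
      setIntegral_mono hk2 (hI2.add hI3) hpt
    rw [integral_add hI2 hI3, integral_const_mul, integral_const_mul, integral_const_mul,
      integral_finsetSum _ fun g hg => (hK g hg).2.2.2.2.1] at h4
    have h5 : ∑ g ∈ S, ∫ y in Ioi (0 : ℝ), ‖K g y - Km g (p g) L y‖ ^ 2 * y ^ 2 ≤ ∑ g ∈ S, C g :=
      Finset.sum_le_sum fun g hg => (hK g hg).2.2.2.2.2
    have h6 : (∑ g ∈ S, ‖w g‖ ^ 2) *
        ∑ g ∈ S, ∫ y in Ioi (0 : ℝ), ‖K g y - Km g (p g) L y‖ ^ 2 * y ^ 2 ≤ D := by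
      rw [hDd]
      exact mul_le_mul_of_nonneg_left h5 (Finset.sum_nonneg fun g _ => sq_nonneg _)
    have h7 : (1 + 1 / (2 * δ)) * ((∑ g ∈ S, ‖w g‖ ^ 2) *
        ∑ g ∈ S, ∫ y in Ioi (0 : ℝ), ‖K g y - Km g (p g) L y‖ ^ 2 * y ^ 2) ≤
        (1 + 1 / (2 * δ)) * D := mul_le_mul_of_nonneg_left h6 (by positivity)
    have h8 : (1 + 2 * δ) * ∫ y in Ioi (0 : ℝ), ‖∑ g ∈ S, w g * Km g (p g) L y‖ ^ 2 * y ^ 2 ≤
        (1 + 2 * δ) * (L * M + CN) := mul_le_mul_of_nonneg_left r2 (by positivity)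
    have h9 : (1 + 2 * δ) * (L * M + CN) + (1 + 1 / (2 * δ)) * D =
        L * ((1 + 2 * δ) * M) + E := by
      rw [hEd]
      ring
    calc _ ≤ _ := h4
      _ ≤ (1 + 2 * δ) * (L * M + CN) + (1 + 1 / (2 * δ)) * D := add_le_add h8 h7
      _ = L * ((1 + 2 * δ) * M) + E := h9
      _ ≤ L * ((1 + 2 * δ) * M) + L * (η / 8) := by linarith
      _ = _ := by ring
  have hpair := (pair a ha' hkm hk2).2
  have hCS : ‖∫ y in Ioi (0 : ℝ), ((difR a (1 / y) : ℝ) : ℂ) * k y‖ ^ 2 ≤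
      JR a * (L * ((1 + 2 * δ) * M + η / 8)) :=
    (pair_le h3 a ha' hkm hk2).trans (mul_le_mul_of_nonneg_left hkN (JR_nonneg a))
  -- the main term
  have hmain : ‖(∫ y in Ioi (1 : ℝ), k y) - (M : ℂ)‖ ≤ W / L := by
    have e1 : ∫ y in Ioi (1 : ℝ), k y =
        ∑ g ∈ S, w g * ∫ y in Ioi (1 : ℝ), K g y := by
      rw [hk, integral_finsetSum _ fun g hg => (int1 (hKm g hg) (hK2 g hg)).const_mul _]
      exact Finset.sum_congr rfl fun g _ => integral_const_mul _ _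
    have e2 : (M : ℂ) = ∑ g ∈ S, w g * ((((p g).eval 0 : ℝ) : ℂ) / cl g) := by
      rw [hMd, Complex.ofReal_sum]
      refine Finset.sum_congr rfl fun g _ => ?_
      rw [← hw1, mul_div_assoc]
    rw [e1, e2, ← Finset.sum_sub_distrib]
    refine (norm_sum_le _ _).trans ?_
    rw [hWd, Finset.sum_div]
    refine Finset.sum_le_sum fun g hg => ?_
    rw [← mul_sub, norm_mul, mul_div_assoc]
    exact mul_le_mul_of_nonneg_left (hK g hg).2.2.2.1 (norm_nonneg _)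
  -- the orthogonality
  have horth : ∑ θ ∈ a.support, (a θ : ℂ) *
      ∫ y in Ioi (0 : ℝ), ((Int.fract (θ * y) : ℝ) : ℂ) * k y = 0 := by
    refine Finset.sum_eq_zero fun θ hθ => ?_
    have e2 : ∫ y in Ioi (0 : ℝ), ((Int.fract (θ * y) : ℝ) : ℂ) * k y =
        ∑ g ∈ S, w g * ∫ y in Ioi (0 : ℝ), ((Int.fract (θ * y) : ℝ) : ℂ) * K g y := by
      have e3 : (fun y : ℝ => ((Int.fract (θ * y) : ℝ) : ℂ) * k y) = fun y =>
          ∑ g ∈ S, w g * (((Int.fract (θ * y) : ℝ) : ℂ) * K g y) := by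
        funext y
        rw [hk, Finset.mul_sum]
        refine Finset.sum_congr rfl fun g _ => ?_
        ring
      rw [e3, integral_finsetSum _ fun g hg =>
        (intfr (hKm g hg) (hK2 g hg) θ (ha' θ hθ).1 (ha' θ hθ).2).const_mul _]
      exact Finset.sum_congr rfl fun g _ => integral_const_mul _ _
    rw [e2, Finset.sum_eq_zero, mul_zero]
    intro g hg
    rw [(hK g hg).2.2.1 θ (by rw [hexp]; exact (ha θ hθ).1) (ha θ hθ).2, mul_zero]
  refine final_calc (C3 := 0) (X := 0) hM hη hδ2 rfl (JR_nonneg a) hL1 hLM (norm_nonneg _) ?_ hW0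
    le_rfl le_rfl (by linarith) hCS
  rw [hpair, horth, sub_zero]
  have e6 : M ≤ ‖(M : ℂ)‖ := by
    rw [Complex.norm_real, Real.norm_eq_abs]
    exact le_abs_self M
  have e8 : ‖(M : ℂ)‖ ≤ ‖(∫ y in Ioi (1 : ℝ), k y)‖ +
      ‖(∫ y in Ioi (1 : ℝ), k y) - (M : ℂ)‖ := by
    have e7 : (M : ℂ) = (∫ y in Ioi (1 : ℝ), k y) - ((∫ y in Ioi (1 : ℝ), k y) - (M : ℂ)) := by
      ring
    conv_lhs => rw [e7]
    exact norm_sub_le _ _
  linarith

end Pool.Agent.Q280.BD
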